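import Pool.Agent.CCL.Final

/-!
# Congruence closure in linear time for a bounded number of pairs on acyclic graphs

One program of the unit cost random access machine computes the congruence closure of every
instance `G` (`n` vertices, `m` edges, `k` pairs).  A list `F` of vertices may be given with
the input.  The time is `O((1 + k + |F| + s) (1 + n + m))`, where `s` is the number of
vertices on directed cycles of `G` which avoid `F`, and all numbers computed are
`O((1 + n + m + k + |F| + maximal label)^2)`.

In particular, for every fixed `K` the time is linear on all acyclic graphs with at most `K`
pairs, that is, for the ground consequences of at most `K` ground equations, and more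
generally for at most `K` pairs and a given feedback vertex set `F` of at most `K` elements.
-/

namespace Pool.Agent.Results.MP_7a8e14_lc.BoundedEquations

open Pool.Agent.CCL

theorem result : ∃ (P : List Instr) (c : ℕ), ∀ (G : Inst) (F : List (Fin G.n)),
    ∃ (o : List ℕ) (t : ℕ),
      Computes (c * (1 + G.n + G.m + G.k + F.length + G.top) ^ 2) P (G.code F) o t ∧
      t ≤ c * (1 + G.k + F.length + G.cyc F) * (1 + G.n + G.m) ∧
      o.length = G.n ∧ ∀ u v : Fin G.n, o[(u : ℕ)]? = o[(v : ℕ)]? ↔ G.closure u v :=
  main

end Pool.Agent.Results.MP_7a8e14_lc.BoundedEquations
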