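import Pool.Agent.Work.MP_7a8e14_lc.EQ.Final

/-!
# The equational complexity of congruence closure is of the exact order `N α(N)`
-/

namespace Pool.Agent.Results.MP_7a8e14_lc.EquationalComplexity

open Pool.Agent.EQ

/-- **Lower bound**: for every `N ≥ 64` there is an acyclic labelled graph without distinct
congruent vertices (a graph of ground terms), with input pairs, of total size at most `N`, and two
vertices that are equal in the congruence closure, such that every derivation of this single
equation, even in an extension of the graph by new vertices (new terms, new names), has cost at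
least `N α(N) / 3456`.  **Upper bound**: for every labelled graph with input pairs of total size
`N` there is a derivation of cost at most `40 N (α(N) + 1)`, without new vertices, of the whole
closure: it contains, for every vertex, the equation with the representative of its class. -/
theorem result :
    (∀ N : ℕ, 64 ≤ N →
      ∃ (V : Type) (_ : Fintype V) (G : LGraph V ℕ) (E : List (V × V)) (u v : V),
        size G E ≤ N ∧ Fintype.card V ≤ ∑ x, (G.out x).length ∧
        (∃ h : V → ℕ, ∀ x, ∀ y ∈ G.out x, h y < h x) ∧
        (∀ x y, G.Congr (fun a b => a = b) x y → x = y) ∧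
        G.Closure E u v ∧
        ∀ (W : Type) (_ : Fintype W) (G' : LGraph (V ⊕ W) ℕ), Extends G G' →
          ∀ (D : List ((V ⊕ W) × (V ⊕ W))) (c : ℕ), G'.Der (liftE W E) D c →
            (Sum.inl u, Sum.inl v) ∈ D →
              N * alpha N ≤ 3456 * (c + ∑ w : W, (G'.out (Sum.inr w)).length)) ∧
    (∀ (V L : Type) (_ : Fintype V) (G : LGraph V L) (E : List (V × V)),
      ∃ (D : List (V × V)) (c : ℕ) (rep : V → V), G.Der E D c ∧
        (∀ x y, G.Closure E x y ↔ rep x = rep y) ∧ (∀ x, Avail D x (rep x)) ∧
        c ≤ 40 * (size G E * (alpha (size G E) + 1))) :=
  ⟨fun N hN => lower_bound N hN, fun _ _ _ G E => upper_bound G E⟩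

end Pool.Agent.Results.MP_7a8e14_lc.EquationalComplexity
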